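import Pool.Agent.GLE.StmtsC

/-! Squad GLE, row AMG: arithmetic-geometric mean step. -/

namespace Pool.Agent.GLE.H90

open Pool.Agent.GLE Finset

theorem amgm_pow (r : ℕ) (hr : 1 ≤ r) (x : Fin r → ℝ) (W : ℝ) (hx : ∀ j, 0 ≤ x j)
    (hs : ∑ j, x j ≤ W) : ∏ j, x j ≤ (W / r) ^ r := by
  have hr0 : (0 : ℝ) < r := by exact_mod_cast hr
  have hW : 0 ≤ W := le_trans (Finset.sum_nonneg fun j _ => hx j) hs
  have h := Real.geom_mean_le_arith_mean_weighted (Finset.univ : Finset (Fin r))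
    (fun _ => (1 : ℝ) / r) x (fun _ _ => by positivity)
    (by
      rw [Finset.sum_const, Finset.card_univ, Fintype.card_fin, nsmul_eq_mul]
      field_simp) (fun j _ => hx j)
  have h1 : ∑ j, (1 : ℝ) / r * x j ≤ W / r := by
    rw [← Finset.mul_sum, one_div, div_eq_inv_mul]
    exact mul_le_mul_of_nonneg_left hs (by positivity)
  have h2 : ∏ j, x j = (∏ j, x j ^ ((1 : ℝ) / r)) ^ r := by
    rw [← Finset.prod_pow]
    refine Finset.prod_congr rfl fun j _ => ?_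
    rw [← Real.rpow_natCast, ← Real.rpow_mul (hx j), one_div, inv_mul_cancel₀ hr0.ne',
      Real.rpow_one]
  rw [h2]
  exact pow_le_pow_left₀ (Finset.prod_nonneg fun j _ => Real.rpow_nonneg (hx j) _)
    (h.trans h1) r

theorem amg : AmgStmt := by
  intro r N κ τ e W D Q hr he hW hD hQ hτ hκ hκN hsum hmain
  have hr0 : (0 : ℝ) < r := by exact_mod_cast hr
  have hκ0 : ∀ j, (0 : ℝ) < (κ j : ℝ) := fun j => by exact_mod_cast (hκN j).1
  have hN0 : (0 : ℝ) < (N : ℝ) := by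
    have := (hκN ⟨0, hr⟩).2
    exact_mod_cast (Nat.zero_le _).trans_lt this
  set x : Fin r → ℝ := fun j => τ (κ j) * (κ j : ℝ) ^ (-2 - 2 * e) with hxdef
  have hx : ∀ j, 0 ≤ x j := fun j => mul_nonneg (hτ _) (Real.rpow_nonneg (hκ0 j).le _)
  have hsx : ∑ j, x j ≤ W := by
    refine le_trans ?_ hsum
    have h1 : ∑ j, x j = ∑ k ∈ Finset.univ.image κ, τ k * (k : ℝ) ^ (-2 - 2 * e) := by
      rw [Finset.sum_image (fun a _ b _ hab => hκ hab)]
    rw [h1]
    refine Finset.sum_le_sum_of_subset_of_nonneg ?_ ?_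
    · intro k hk
      obtain ⟨j, _, rfl⟩ := Finset.mem_image.mp hk
      exact Finset.mem_Ico.mpr (hκN j)
    · intro k _ _
      exact mul_nonneg (hτ k) (Real.rpow_nonneg (Nat.cast_nonneg k) _)
  have hprod := amgm_pow r hr x W hx hsx
  set M : ℝ := (N : ℝ) ^ (2 * e) with hM
  have hM0 : 0 < M := Real.rpow_pos_of_pos hN0 _
  have hτx : ∀ j, τ (κ j) ≤ x j * ((κ j : ℝ) ^ 2 * M) := by
    intro j
    have h1 : τ (κ j) = x j * (κ j : ℝ) ^ (2 + 2 * e) := by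
      rw [hxdef]
      simp only
      rw [mul_assoc, ← Real.rpow_add (hκ0 j)]
      have : -2 - 2 * e + (2 + 2 * e) = 0 := by ring
      rw [this, Real.rpow_zero, mul_one]
    have h2 : (κ j : ℝ) ^ (2 + 2 * e) ≤ (κ j : ℝ) ^ 2 * M := by
      rw [Real.rpow_add (hκ0 j)]
      have h3 : (κ j : ℝ) ^ (2 : ℝ) = (κ j : ℝ) ^ 2 := by
        rw [← Real.rpow_natCast]; norm_num
      rw [h3]
      refine mul_le_mul_of_nonneg_left ?_ (by positivity)
      refine Real.rpow_le_rpow (hκ0 j).le ?_ (by positivity)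
      exact_mod_cast (hκN j).2.le
    rw [h1]
    refine le_trans ?_ (le_of_eq rfl)
    have hxx : x j * (κ j : ℝ) ^ (2 + 2 * e) ≤ x j * ((κ j : ℝ) ^ 2 * M) :=
      mul_le_mul_of_nonneg_left h2 (hx j)
    exact hxx
  have hT : ∏ j, τ (κ j) ≤ (W / r) ^ r * ((∏ j, (κ j : ℝ)) ^ 2 * M ^ r) := by
    calc ∏ j, τ (κ j) ≤ ∏ j, (x j * ((κ j : ℝ) ^ 2 * M)) :=
          Finset.prod_le_prod (fun j _ => hτ _) fun j _ => hτx j
      _ = (∏ j, x j) * ((∏ j, (κ j : ℝ)) ^ 2 * M ^ r) := by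
          have h4 : ∏ j, ((κ j : ℝ) ^ 2 * M) = (∏ j, (κ j : ℝ)) ^ 2 * M ^ r := by
            rw [Finset.prod_mul_distrib, Finset.prod_pow,
              Finset.prod_const, Finset.card_univ, Fintype.card_fin]
          rw [Finset.prod_mul_distrib (f := x), h4]
      _ ≤ (W / r) ^ r * ((∏ j, (κ j : ℝ)) ^ 2 * M ^ r) :=
          mul_le_mul_of_nonneg_right hprod (by positivity)
  set P : ℝ := ∏ j, (κ j : ℝ) with hP
  have hP0 : 0 < P := Finset.prod_pos fun j _ => hκ0 j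
  have h1 : P ^ 2 * 1 ≤ P ^ 2 * (D * (W / r) ^ r * M ^ r * Q ^ (r + 1)) := by
    calc P ^ 2 * 1 = P ^ 2 := mul_one _
      _ ≤ D * (∏ j, τ (κ j)) * Q ^ (r + 1) := hmain
      _ ≤ D * ((W / r) ^ r * (P ^ 2 * M ^ r)) * Q ^ (r + 1) := by
          refine mul_le_mul_of_nonneg_right ?_ (by positivity)
          exact mul_le_mul_of_nonneg_left hT hD.le
      _ = P ^ 2 * (D * (W / r) ^ r * M ^ r * Q ^ (r + 1)) := by ring
  have h2 : 1 ≤ D * (W / r) ^ r * M ^ r * Q ^ (r + 1) :=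
    le_of_mul_le_mul_left h1 (by positivity)
  calc (r : ℝ) ^ r = (r : ℝ) ^ r * 1 := (mul_one _).symm
    _ ≤ (r : ℝ) ^ r * (D * (W / r) ^ r * M ^ r * Q ^ (r + 1)) :=
        mul_le_mul_of_nonneg_left h2 (by positivity)
    _ = D * Q * (W * M * Q) ^ r := by
        rw [div_pow, pow_succ, mul_pow, mul_pow]
        field_simp

end Pool.Agent.GLE.H90

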